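import Pool.Agent.Run7.h894.LK.Stm
import Pool.Agent.Helper717.LT.P_T_all

/-!
# Project LK, piece KINY: functions on the product of the line and `ℝ^m`
-/

set_option autoImplicit false

open MeasureTheory Set Filter Topology
open scoped Matrix

namespace Pool.Agent.Run7.H894.LK.KINY

open LTd (Mat pd pp bco RS SS QS)
open Pool.Agent.Run7.H894.LK

theorem LL_pos (k : ℕ) : 0 < Pool.Agent.N537.RS.LL k := by
  unfold Pool.Agent.N537.RS.LL
  have h := Pool.Agent.R117.RL.Ga_pos k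
  positivity

theorem Kp_pos {k : ℕ} (hk : 6 ≤ k) : 0 < Kp k := by
  unfold Kp
  have h := LL_pos k
  have hk' : (0 : ℝ) < k := by exact_mod_cast (by omega : 0 < k)
  have h1 : (0 : ℝ) < 2 / ((k - 1).factorial : ℝ) * Pool.Agent.N537.RS.LL k := by positivity
  have h2 := Real.rpow_pos_of_pos h1 (-(2 / (k : ℝ)))
  positivity

theorem pp1 {k : ℕ} (hk : 6 ≤ k) : pp ((k : ℝ) / 2 + 1) = 1 + 2 / (k : ℝ) := by
  have hk' : (0 : ℝ) < k := by exact_mod_cast (by omega : 0 < k)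
  unfold pp
  have h1 : (k : ℝ) / 2 + 1 - 1 = k / 2 := by ring
  rw [h1]
  field_simp

theorem pp2 {k : ℕ} (m : ℕ) (hk : 6 ≤ k) :
    pp ((k : ℝ) / 2 + 1 + (m : ℝ) / 2) = 1 + 2 / ((k : ℝ) + m) := by
  have hk' : (0 : ℝ) < k := by exact_mod_cast (by omega : 0 < k)
  have hm' : (0 : ℝ) ≤ m := Nat.cast_nonneg m
  unfold pp
  have e : (k : ℝ) / 2 + 1 + (m : ℝ) / 2 - 1 = ((k : ℝ) + m) / 2 := by ring
  rw [e]
  have h2 : (k : ℝ) + m ≠ 0 := by positivity
  field_simp
  ring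

/-- scaling of the constant in the last argument -/
theorem bco_scale {k : ℕ} (m : ℕ) (hk : 6 ≤ k) (t : ℝ) :
    Real.exp (2 * t) * bco ((m : ℝ) / 2) ((k : ℝ) / 2 + 1) (Kp k * Real.exp ((4 / (k : ℝ) - 2) * t)) =
      bco ((m : ℝ) / 2) ((k : ℝ) / 2 + 1) (Kp k) * Real.exp (ex k m * t) := by
  have hk' : (0 : ℝ) < k := by exact_mod_cast (by omega : 0 < k)
  have hm' : (0 : ℝ) ≤ m := Nat.cast_nonneg m
  have hK := Kp_pos hk
  have hJ : 0 < LTd.JJ ((m : ℝ) / 2) ((k : ℝ) / 2 + 1) :=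
    LTd.bco_succ_JJ_pos (by positivity) (by linarith)
  unfold bco
  have e1 : (k : ℝ) / 2 + 1 - 1 = k / 2 := by ring
  have e2 : (k : ℝ) / 2 + 1 + (m : ℝ) / 2 - 1 = ((k : ℝ) + m) / 2 := by ring
  rw [e1, e2, Real.mul_rpow hK.le (Real.exp_pos _).le, ← mul_assoc,
    Real.mul_rpow (by positivity) (by positivity)]
  rw [← Real.exp_mul, ← Real.exp_mul]
  have e3 : Real.exp (2 * t) * ((LTd.JJ ((m : ℝ) / 2) ((k : ℝ) / 2 + 1) * Kp k ^ ((k : ℝ) / 2)) ^
      (1 / (((k : ℝ) + m) / 2)) * Real.exp ((4 / (k : ℝ) - 2) * t * ((k : ℝ) / 2) *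
        (1 / (((k : ℝ) + m) / 2)))) =
      (LTd.JJ ((m : ℝ) / 2) ((k : ℝ) / 2 + 1) * Kp k ^ ((k : ℝ) / 2)) ^
      (1 / (((k : ℝ) + m) / 2)) * (Real.exp (2 * t) * Real.exp ((4 / (k : ℝ) - 2) * t * ((k : ℝ) / 2) *
        (1 / (((k : ℝ) + m) / 2)))) := by ring
  rw [e3, ← Real.exp_add]
  congr 2
  unfold ex
  have h2 : (k : ℝ) + m ≠ 0 := by positivity
  field_simp

theorem t_KINY (hKINM : S_KINM) : S_KINY := by
  intro k hk m n w hw hc lab g hg hB
  have hk' : (0 : ℝ) < k := by exact_mod_cast (by omega : 0 < k)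
  have hk6 : (6 : ℝ) ≤ k := by exact_mod_cast hk
  have hm' : (0 : ℝ) ≤ m := Nat.cast_nonneg m
  have hwc : ∀ i, Continuous (w i) := fun i => (hw i).continuous
  have hsys := LTd.slice_sys w hw hc
  have hg0 : ∀ i, (0 : ℝ) ≤ (g (lab i) : ℝ) := fun i => Nat.cast_nonneg _
  have hcw2 : ∀ i j, HasCompactSupport (fun z => w i z * w j z) := fun i j =>
    (hc i).mul_right (f' := w j)
  have hexpc : Continuous fun z : Fin (m + 1) → ℝ => Real.exp (2 * z 0) :=
    Real.continuous_exp.comp (continuous_const.mul (continuous_apply 0))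
  -- the weighted Gram matrix
  have hWM : WM (RS w) = Matrix.of fun i j => ∫ z, Real.exp (2 * z 0) * (w i z * w j z) := by
    ext i j
    have h1 : ∫ z, Real.exp (2 * z 0) * (w i z * w j z) = ∫ x : ℝ, ∫ y : Fin m → ℝ,
        Real.exp (2 * x) * (w i (Fin.cons x y : Fin (m + 1) → ℝ) *
          w j (Fin.cons x y : Fin (m + 1) → ℝ)) := by
      have h := LTd.slice_int (f := fun z : Fin (m + 1) → ℝ => Real.exp (2 * z 0) * (w i z * w j z))
        (hexpc.mul ((hwc i).mul (hwc j))) ((hcw2 i j).mul_left)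
      simpa using h
    simp only [WM, Matrix.of_apply, RS]
    rw [h1]
    refine integral_congr_ae (ae_of_all _ fun x => ?_)
    show Real.exp (2 * x) * _ = _
    rw [← integral_const_mul]
  have hpd : ∀ (j : Fin (m + 1)) (i : Fin n), Continuous (pd j (w i)) ∧
      HasCompactSupport (pd j (w i)) := fun j i => LTd.pd_basic (hw i) (hc i) j
  have hsqc : ∀ (j : Fin (m + 1)) (i : Fin n), Continuous (fun z => pd j (w i) z ^ 2) :=
    fun j i => (hpd j i).1.pow 2
  have hsqs : ∀ (j : Fin (m + 1)) (i : Fin n), HasCompactSupport (fun z => pd j (w i) z ^ 2) :=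
    fun j i => (hpd j i).2.comp_left (g := fun t : ℝ => t ^ 2) (by norm_num)
  have hsqi : ∀ (j : Fin (m + 1)) (i : Fin n), Integrable (fun z => pd j (w i) z ^ 2) :=
    fun j i => (hsqc j i).integrable_of_hasCompactSupport (hsqs j i)
  -- the density
  have hq : 0 < 1 + 2 / ((k : ℝ) + m) := by positivity
  have hρc : Continuous (fun z : Fin (m + 1) → ℝ => Real.exp (ex k m * z 0) *
      (∑ i, (g (lab i) : ℝ) * w i z ^ 2) ^ (1 + 2 / ((k : ℝ) + m))) :=
    (Real.continuous_exp.comp (continuous_const.mul (continuous_apply 0))).mul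
      ((continuous_finsetSum _ fun i _ => continuous_const.mul ((hwc i).pow 2)).rpow_const
        (fun _ => Or.inr hq.le))
  have hρs : HasCompactSupport (fun z : Fin (m + 1) → ℝ => Real.exp (ex k m * z 0) *
      (∑ i, (g (lab i) : ℝ) * w i z ^ 2) ^ (1 + 2 / ((k : ℝ) + m))) := by
    refine HasCompactSupport.intro (isCompact_iUnion (fun i => hc i)) (fun z hz => ?_)
    have h0 : ∀ i, w i z = 0 := fun i =>
      image_eq_zero_of_notMem_tsupport (fun h => hz (Set.mem_iUnion.2 ⟨i, h⟩))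
    have h00 : ∑ i, (g (lab i) : ℝ) * w i z ^ 2 = 0 := by simp [h0]
    show Real.exp (ex k m * z 0) * (∑ i, (g (lab i) : ℝ) * w i z ^ 2) ^ (1 + 2 / ((k : ℝ) + m)) = 0
    rw [h00, Real.zero_rpow hq.ne', mul_zero]
  -- the gradient part
  have hDc : Continuous (fun z : Fin (m + 1) → ℝ => ∑ i, (g (lab i) : ℝ) *
      (Real.exp (2 * z 0) * ∑ j : Fin m, pd j.succ (w i) z ^ 2)) :=
    continuous_finsetSum _ fun i _ => continuous_const.mul
      (hexpc.mul (continuous_finsetSum _ fun j _ => hsqc j.succ i))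
  have hDs1 : ∀ i, HasCompactSupport (fun z : Fin (m + 1) → ℝ =>
      Real.exp (2 * z 0) * ∑ j : Fin m, pd j.succ (w i) z ^ 2) := by
    intro i
    refine HasCompactSupport.intro (isCompact_iUnion (fun j : Fin m => (hsqs j.succ i)))
      (fun z hz => ?_)
    have h0 : ∀ (j : Fin m), pd j.succ (w i) z ^ 2 = 0 := fun j =>
      image_eq_zero_of_notMem_tsupport (f := fun z => pd j.succ (w i) z ^ 2)
        (fun h => hz (Set.mem_iUnion.2 ⟨j, h⟩))
    simp only [h0]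
    simp
  have hDc1 : ∀ i, Continuous (fun z : Fin (m + 1) → ℝ =>
      Real.exp (2 * z 0) * ∑ j : Fin m, pd j.succ (w i) z ^ 2) := fun i =>
    hexpc.mul (continuous_finsetSum _ fun j _ => hsqc j.succ i)
  have hDi1 : ∀ i, Integrable (fun z : Fin (m + 1) → ℝ =>
      Real.exp (2 * z 0) * ∑ j : Fin m, pd j.succ (w i) z ^ 2) := fun i =>
    (hDc1 i).integrable_of_hasCompactSupport (hDs1 i)
  have hDs : HasCompactSupport (fun z : Fin (m + 1) → ℝ => ∑ i, (g (lab i) : ℝ) *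
      (Real.exp (2 * z 0) * ∑ j : Fin m, pd j.succ (w i) z ^ 2)) := by
    refine HasCompactSupport.intro (isCompact_iUnion (fun i : Fin n =>
      isCompact_iUnion (fun j : Fin m => (hsqs j.succ i)))) (fun z hz => ?_)
    have h0 : ∀ (i : Fin n) (j : Fin m), pd j.succ (w i) z ^ 2 = 0 := fun i j =>
      image_eq_zero_of_notMem_tsupport (f := fun z => pd j.succ (w i) z ^ 2)
        (fun h => hz (Set.mem_iUnion.2 ⟨i, Set.mem_iUnion.2 ⟨j, h⟩⟩))
    simp only [h0]
    simp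
  -- the function of `t`
  set b0 : ℝ := bco ((m : ℝ) / 2) ((k : ℝ) / 2 + 1) (Kp k) with hb0
  set F1 : (Fin (m + 1) → ℝ) → ℝ := fun z => Real.exp (ex k m * z 0) *
      (∑ i, (g (lab i) : ℝ) * w i z ^ 2) ^ (1 + 2 / ((k : ℝ) + m)) with hF1
  set F2 : (Fin (m + 1) → ℝ) → ℝ := fun z => ∑ i, (g (lab i) : ℝ) *
      (Real.exp (2 * z 0) * ∑ j : Fin m, pd j.succ (w i) z ^ 2) with hF2
  have hi1 := LTd.ts_slice_integrable hρc hρs
  have hi2 := LTd.ts_slice_integrable hDc hDs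
  have hBelow : Below k n (fun i => (g (lab i) : ℝ)) (RS w) (fun t =>
      b0 * (∫ y : Fin m → ℝ, F1 (Fin.cons t y : Fin (m + 1) → ℝ)) -
        ∫ y : Fin m → ℝ, F2 (Fin.cons t y : Fin (m + 1) → ℝ)) := by
    intro t V r hr hspec
    obtain ⟨hV, hV', hR⟩ := hspec
    have ha : 0 < Kp k * Real.exp ((4 / (k : ℝ) - 2) * t) := mul_pos (Kp_pos hk) (Real.exp_pos _)
    have hR' : (Matrix.of fun i j => ∫ y : Fin m → ℝ,
        (√(g (lab i) : ℝ) * w i (Fin.cons t y : Fin (m + 1) → ℝ)) *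
          (√(g (lab j) : ℝ) * w j (Fin.cons t y : Fin (m + 1) → ℝ)) : Mat n) =
        V * Matrix.diagonal r * Vᵀ := by
      rw [← hR]
      ext i j
      simp only [Matrix.of_apply, RS]
      rw [← integral_const_mul]
      refine integral_congr_ae (ae_of_all _ fun y => ?_)
      simp only
      ring
    have h1 := LTd.T_slice ha (LTd.T_all m ((k : ℝ) / 2 + 1) (by linarith))
      (fun i (y : Fin m → ℝ) => √(g (lab i) : ℝ) * w i (Fin.cons t y : Fin (m + 1) → ℝ))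
      (fun i => contDiff_const.mul (LTd.slice_pd (hw i) t).1)
      (fun i => ((LTd.slice_cont (hwc i) (hc i)).2.2.1 t).mul_left) V r hV hV' hR'
    have h3 : ∀ (j : Fin m) (i : Fin n) (y : Fin m → ℝ),
        pd j (fun y : Fin m → ℝ => √(g (lab i) : ℝ) * w i (Fin.cons t y : Fin (m + 1) → ℝ)) y =
          √(g (lab i) : ℝ) * pd j.succ (w i) (Fin.cons t y : Fin (m + 1) → ℝ) := by
      intro j i y
      have h4 := (LTd.slice_pd (hw i) t).2 j y
      unfold pd at h4 ⊢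
      rw [fderiv_const_mul, smul_apply, smul_eq_mul, h4]
      exact ((LTd.slice_pd (hw i) t).1.differentiable (by norm_num)) y
    simp only [h3, mul_pow, Real.sq_sqrt (hg0 _)] at h1
    rw [pp1 hk, pp2 m hk] at h1
    have he : 0 < Real.exp (2 * t) := Real.exp_pos _
    have h5 := mul_le_mul_of_nonneg_left h1 he.le
    rw [← mul_assoc, bco_scale m hk t, mul_add] at h5
    have e1 : ∫ y : Fin m → ℝ, F1 (Fin.cons t y : Fin (m + 1) → ℝ) =
        Real.exp (ex k m * t) * ∫ y : Fin m → ℝ,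
          (∑ i, (g (lab i) : ℝ) * w i (Fin.cons t y : Fin (m + 1) → ℝ) ^ 2) ^
            (1 + 2 / ((k : ℝ) + m)) := by
      rw [← integral_const_mul]
      simp only [hF1, Fin.cons_zero]
    have e2 : ∫ y : Fin m → ℝ, F2 (Fin.cons t y : Fin (m + 1) → ℝ) =
        Real.exp (2 * t) * ∫ y : Fin m → ℝ, ∑ j : Fin m, ∑ i, (g (lab i) : ℝ) *
          pd j.succ (w i) (Fin.cons t y : Fin (m + 1) → ℝ) ^ 2 := by
      rw [← integral_const_mul]
      refine integral_congr_ae (ae_of_all _ fun y => ?_)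
      simp only [hF2, Fin.cons_zero]
      rw [Finset.sum_comm, Finset.mul_sum]
      refine Finset.sum_congr rfl fun i _ => ?_
      rw [Finset.mul_sum, Finset.mul_sum, Finset.mul_sum]
      refine Finset.sum_congr rfl fun j _ => ?_
      ring
    have e3 : Real.exp (2 * t) * (Kp k * Real.exp ((4 / (k : ℝ) - 2) * t) *
        ∑ i, r i ^ (1 + 2 / (k : ℝ))) = Kp k * Real.exp (4 * t / k) * ∑ i, r i ^ (1 + 2 / (k : ℝ)) := by
      have : Real.exp (4 * t / k) = Real.exp (2 * t) * Real.exp ((4 / (k : ℝ) - 2) * t) := by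
        rw [← Real.exp_add]
        congr 1
        field_simp
        ring
      rw [this]
      ring
    rw [e3] at h5
    show b0 * (∫ y : Fin m → ℝ, F1 (Fin.cons t y : Fin (m + 1) → ℝ)) -
        ∫ y : Fin m → ℝ, F2 (Fin.cons t y : Fin (m + 1) → ℝ) ≤ _
    rw [e1, e2]
    have e4 : b0 * (Real.exp (ex k m * t) * ∫ y : Fin m → ℝ,
          (∑ i, (g (lab i) : ℝ) * w i (Fin.cons t y : Fin (m + 1) → ℝ) ^ 2) ^
            (1 + 2 / ((k : ℝ) + m))) = b0 * Real.exp (ex k m * t) * ∫ y : Fin m → ℝ,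
          (∑ i, (g (lab i) : ℝ) * w i (Fin.cons t y : Fin (m + 1) → ℝ) ^ 2) ^
            (1 + 2 / ((k : ℝ) + m)) := by ring
    rw [e4]
    linarith
  have hmain := hKINM k hk n (RS w) (SS w) (QS w) hsys lab g hg (by rw [hWM]; exact hB) _
    ((hi1.const_mul b0).sub hi2) hBelow
  rw [integral_sub' (hi1.const_mul b0) hi2, integral_const_mul, ← LTd.slice_int hρc hρs,
    ← LTd.slice_int hDc hDs] at hmain
  have hF2i : ∫ z, F2 z = ∑ i, (g (lab i) : ℝ) *
      ∫ z, Real.exp (2 * z 0) * ∑ j : Fin m, pd j.succ (w i) z ^ 2 := by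
    simp only [hF2]
    rw [integral_finsetSum _ (fun i _ => (hDi1 i).const_mul _)]
    refine Finset.sum_congr rfl fun i _ => ?_
    rw [integral_const_mul]
  have hw2c : ∀ i, Continuous (fun z => w i z ^ 2) := fun i => (hwc i).pow 2
  have hw2s : ∀ i, HasCompactSupport (fun z => w i z ^ 2) := fun i =>
    (hc i).comp_left (g := fun t : ℝ => t ^ 2) (by norm_num)
  have hw2i : ∀ i, Integrable (fun z => w i z ^ 2) := fun i =>
    (hw2c i).integrable_of_hasCompactSupport (hw2s i)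
  have hQ : ∀ i, ∫ t, QS w t i i = ∫ z, pd 0 (w i) z ^ 2 := by
    intro i
    have h := LTd.slice_int (hsqc 0 i) (hsqs 0 i)
    rw [h]
    simp only [QS, Matrix.of_apply, ← sq]
  have hRR : ∀ i, ∫ t, RS w t i i = ∫ z, w i z ^ 2 := by
    intro i
    have h := LTd.slice_int (f := fun z => w i z * w i z) ((hwc i).mul (hwc i)) (hcw2 i i)
    simp only [RS, Matrix.of_apply]
    simp only [sq]
    exact h.symm
  have hsplit : ∀ i, ∫ z, (pd 0 (w i) z ^ 2 + nu k (lab i) ^ 2 * w i z ^ 2 +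
      Real.exp (2 * z 0) * ∑ j : Fin m, pd j.succ (w i) z ^ 2) =
      (∫ z, pd 0 (w i) z ^ 2) + nu k (lab i) ^ 2 * (∫ z, w i z ^ 2) +
        ∫ z, Real.exp (2 * z 0) * ∑ j : Fin m, pd j.succ (w i) z ^ 2 := by
    intro i
    have hA : Integrable fun z => pd 0 (w i) z ^ 2 + nu k (lab i) ^ 2 * w i z ^ 2 :=
      (hsqi 0 i).add ((hw2i i).const_mul _)
    rw [integral_add hA (hDi1 i), integral_add (hsqi 0 i) ((hw2i i).const_mul _),
      integral_const_mul]
  have hrhs : ∑ i, (g (lab i) : ℝ) * ∫ z, (pd 0 (w i) z ^ 2 + nu k (lab i) ^ 2 * w i z ^ 2 +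
      Real.exp (2 * z 0) * ∑ j : Fin m, pd j.succ (w i) z ^ 2) =
      (∑ i, (g (lab i) : ℝ) * ((∫ z, pd 0 (w i) z ^ 2) + nu k (lab i) ^ 2 * (∫ z, w i z ^ 2))) +
        ∑ i, (g (lab i) : ℝ) *
          ∫ z, Real.exp (2 * z 0) * ∑ j : Fin m, pd j.succ (w i) z ^ 2 := by
    rw [← Finset.sum_add_distrib]
    refine Finset.sum_congr rfl fun i _ => ?_
    rw [hsplit i]
    ring
  rw [hrhs]
  simp only [hQ, hRR] at hmain
  rw [hF2i] at hmain
  linarith

end Pool.Agent.Run7.H894.LK.KINY
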